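import Mathlib
import Pool.Agent.Lib.MP_395ab6_co.RankTwo

/-! The permanent inequality for Gram matrices of vectors in the real plane. -/

namespace Pool.Agent.FS.RealRankTwo

open Finset Polynomial Pool.Agent.Lib.MP_395ab6_co
open scoped Nat

/-- Coefficients of the Bezoutian. -/
theorem bez {ι : Type*} (s : Finset ι) (c u : ι → ℝ) (e : ℕ → ℝ) (g : ι → ℕ → ℝ)
    (h0 : ∀ k ∈ s, e 0 = u k * g k 0)
    (h1 : ∀ k ∈ s, ∀ j, e (j + 1) = c k * g k j + u k * g k (j + 1))
    (hd : ∀ i : ℕ, ((i : ℝ) + 1) * e (i + 1) = ∑ k ∈ s, c k * g k i) (i : ℕ) :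
    ∀ j : ℕ, ∑ k ∈ s, (c k * g k i) * (c k * g k j) = ((i : ℝ) + 1) * e (i + 1) * e (j + 1) -
      ∑ a ∈ range (i + 1), ((i : ℝ) + j + 2 - 2 * a) * (e a * e (i + j + 2 - a)) := by
  induction i with
  | zero =>
    intro j
    have a1 := hd (j + 1)
    rw [sum_range_one, hd 0, sum_mul]
    have e1 : (((0 : ℕ) : ℝ) + j + 2 - 2 * ((0 : ℕ) : ℝ)) * (e 0 * e (0 + j + 2 - 0)) =
        (∑ k ∈ s, c k * g k (j + 1)) * e 0 := by
      rw [← a1, show 0 + j + 2 - 0 = j + 1 + 1 by omega]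
      push_cast
      ring
    rw [e1, sum_mul, ← sum_sub_distrib]
    refine sum_congr rfl fun k hk => ?_
    rw [h0 k hk, h1 k hk j]
    ring
  | succ i ih =>
    intro j
    have a1 := ih (j + 1)
    have a2 : ∑ k ∈ s, (c k * g k (i + 1)) * (c k * g k j) -
        ∑ k ∈ s, (c k * g k i) * (c k * g k (j + 1)) =
        (((i + 1 : ℕ) : ℝ) + 1) * e (i + 1 + 1) * e (j + 1) -
          (((j + 1 : ℕ) : ℝ) + 1) * e (j + 1 + 1) * e (i + 1) := by
      rw [hd (i + 1), hd (j + 1), sum_mul, sum_mul, ← sum_sub_distrib, ← sum_sub_distrib]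
      refine sum_congr rfl fun k hk => ?_
      rw [h1 k hk i, h1 k hk j]
      ring
    rw [sum_range_succ, show i + 1 + j + 2 - (i + 1) = j + 1 + 1 by omega]
    have a3 : ∑ a ∈ range (i + 1), (((i + 1 : ℕ) : ℝ) + j + 2 - 2 * a) *
        (e a * e (i + 1 + j + 2 - a)) = ∑ a ∈ range (i + 1),
        ((i : ℝ) + ((j + 1 : ℕ) : ℝ) + 2 - 2 * a) * (e a * e (i + (j + 1) + 2 - a)) := by
      refine sum_congr rfl fun a _ => ?_
      rw [show i + 1 + j + 2 - a = i + (j + 1) + 2 - a by omega]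
      push_cast
      ring
    rw [a3]
    push_cast at a1 a2 ⊢
    linarith

theorem fact_conv (r d : ℕ) : (r + d)! ^ 2 ≤ (r + 2 * d)! * r ! := by
  induction d with
  | zero => simp [sq]
  | succ d ih =>
    rw [show r + 2 * (d + 1) = r + 2 * d + 1 + 1 by ring, ← add_assoc, Nat.factorial_succ,
      Nat.factorial_succ, Nat.factorial_succ, mul_pow]
    have h : (r + d + 1) ^ 2 ≤ (r + 2 * d + 1 + 1) * (r + 2 * d + 1) := by nlinarith
    calc _ ≤ (r + 2 * d + 1 + 1) * (r + 2 * d + 1) * ((r + 2 * d)! * r !) := Nat.mul_le_mul h ih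
      _ = _ := by ring

theorem amgm (P Q Y x y : ℝ) (hP : 0 < P) (h : Y ^ 2 ≤ P * Q) :
    -(2 * Y * (x * y)) ≤ P * x ^ 2 + Q * y ^ 2 := by
  refine le_of_mul_le_mul_left ?_ hP
  nlinarith [sq_nonneg (P * x + Y * y), mul_nonneg (sub_nonneg.2 h) (sq_nonneg y)]

/-- The telescoping weight. -/
noncomputable def wt (a m : ℕ) : ℝ := (m ! : ℝ) ^ 2 / ((2 * m - a)! : ℝ)

theorem wt_step (a t : ℕ) : wt a (a + t) - wt a (a + t + 1) = ((a + t)! : ℝ) ^ 2 *
    (((a : ℝ) + 2 * t + 2) * (a + 2 * t + 1) - (a + t + 1) ^ 2) / ((a + 2 * t + 2)! : ℝ) := by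
  unfold wt
  rw [show 2 * (a + t) - a = a + 2 * t by omega, show 2 * (a + t + 1) - a = a + 2 * t + 2 by omega,
    Nat.factorial_succ (a + 2 * t + 1), Nat.factorial_succ (a + 2 * t), Nat.factorial_succ (a + t)]
  have h : ((a + 2 * t)! : ℝ) ≠ 0 := by exact_mod_cast Nat.factorial_ne_zero _
  push_cast
  field_simp
  ring

theorem term (n : ℕ) (e : ℕ → ℝ) (he : ∀ b, n < b → e b = 0) (i a : ℕ) (ha : a ≤ i) :
    -(((i ! * (n - 1 - i)! : ℕ) : ℝ) * (((i : ℝ) + i + 2 - 2 * a) * (e a * e (i + i + 2 - a)))) ≤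
      (wt a i - wt a (i + 1)) * (((n - a)! : ℝ) * e a ^ 2) +
        ((i + i + 2 - a)! : ℝ) * ((n - (i + i + 2 - a))! : ℝ) * e (i + i + 2 - a) ^ 2 := by
  obtain ⟨t, rfl⟩ := Nat.exists_eq_add_of_le ha
  rw [wt_step, show a + t + (a + t) + 2 - a = a + 2 * t + 2 by omega]
  have hN : ((t : ℝ) + 1) ^ 2 ≤ ((a : ℝ) + 2 * t + 2) * (a + 2 * t + 1) - (a + t + 1) ^ 2 := by
    have h1 : (0 : ℝ) ≤ a := by positivity
    have h2 : (0 : ℝ) ≤ t := by positivity
    nlinarith [mul_nonneg h1 h2]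
  generalize ((a : ℝ) + 2 * t + 2) * (a + 2 * t + 1) - (a + t + 1) ^ 2 = N at hN
  have hN0 : 0 < N := lt_of_lt_of_le (by positivity) hN
  by_cases hb : n < a + 2 * t + 2
  · rw [he _ hb]
    simp only [mul_zero, neg_zero]
    positivity
  · obtain ⟨r, rfl⟩ := Nat.exists_eq_add_of_le (not_lt.1 hb)
    rw [show a + 2 * t + 2 + r - 1 - (a + t) = r + (t + 1) by omega,
      show a + 2 * t + 2 + r - a = r + 2 * (t + 1) by omega,
      show a + 2 * t + 2 + r - (a + 2 * t + 2) = r by omega]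
    have hc : ((r + (t + 1))! : ℝ) ^ 2 ≤ ((r + 2 * (t + 1))! : ℝ) * (r ! : ℝ) := by
      exact_mod_cast fact_conv r (t + 1)
    have hB : (0 : ℝ) < ((a + 2 * t + 2)! : ℝ) := by positivity
    have key := amgm (((a + t)! : ℝ) ^ 2 * N / ((a + 2 * t + 2)! : ℝ) * ((r + 2 * (t + 1))! : ℝ))
      (((a + 2 * t + 2)! : ℝ) * (r ! : ℝ))
      (((a + t)! : ℝ) * ((r + (t + 1))! : ℝ) * ((t : ℝ) + 1)) (e a) (e (a + 2 * t + 2))
      (by positivity) (by
        have e1 : ((a + t)! : ℝ) ^ 2 * N / ((a + 2 * t + 2)! : ℝ) * ((r + 2 * (t + 1))! : ℝ) *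
            (((a + 2 * t + 2)! : ℝ) * (r ! : ℝ)) =
            ((a + t)! : ℝ) ^ 2 * ((((r + 2 * (t + 1))! : ℝ) * (r ! : ℝ)) * N) := by
          field_simp
        rw [e1, mul_pow, mul_pow, mul_assoc]
        exact mul_le_mul_of_nonneg_left (mul_le_mul hc hN (by positivity) (by positivity))
          (by positivity))
    refine le_trans (le_of_eq ?_) (key.trans (le_of_eq ?_))
    · push_cast; ring
    · ring

theorem tele (z : ℕ → ℝ) (N : ℕ) :
    ∑ i ∈ range N, ∑ a ∈ range (i + 1), (wt a i - wt a (i + 1)) * z a =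
      ∑ a ∈ range N, (wt a a - wt a N) * z a := by
  induction N with
  | zero => simp
  | succ N ih =>
    have h : ∑ a ∈ range N, (wt a a - wt a N) * z a =
        ∑ a ∈ range (N + 1), (wt a a - wt a N) * z a := by
      rw [sum_range_succ, sub_self, zero_mul, add_zero]
    rw [sum_range_succ, ih, h, ← sum_add_distrib]
    exact sum_congr rfl fun a _ => by ring

theorem upper_terms (n : ℕ) (f : ℕ → ℝ) (hf : ∀ b, 0 ≤ f b) (hf0 : ∀ b, n < b → f b = 0) :
    ∑ i ∈ range n, ∑ a ∈ range (i + 1), f (i + i + 2 - a) ≤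
      ∑ b ∈ range (n + 1), ((b / 2 : ℕ) : ℝ) * f b := by
  have h1 : ∀ i, ∑ a ∈ range (i + 1), f (i + i + 2 - a) =
      ∑ b ∈ range (n + 1), if i + 1 < b ∧ b ≤ i + i + 2 then f b else 0 := by
    intro i
    have a1 : ∑ a ∈ range (i + 1), f (i + i + 2 - a) = ∑ b ∈ Ioc (i + 1) (i + i + 2), f b := by
      refine sum_nbij' (fun a => i + i + 2 - a) (fun b => i + i + 2 - b) ?_ ?_ ?_ ?_ ?_
      · intro a ha; have := mem_range.1 ha; exact mem_Ioc.2 ⟨by omega, by omega⟩
      · intro b hb; have := mem_Ioc.1 hb; exact mem_range.2 (by omega)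
      · intro a ha; have := mem_range.1 ha; omega
      · intro b hb; have := mem_Ioc.1 hb; omega
      · intro a _; rfl
    rw [a1, ← sum_filter]
    refine (sum_subset (fun b hb => mem_Ioc.2 (mem_filter.1 hb).2) fun b hb hnb => ?_).symm
    refine hf0 b ?_
    by_contra hc
    exact hnb (mem_filter.2 ⟨mem_range.2 (by omega), mem_Ioc.1 hb⟩)
  rw [sum_congr rfl fun i _ => h1 i, sum_comm]
  refine sum_le_sum fun b _ => ?_
  rw [← sum_filter, sum_const, nsmul_eq_mul]
  refine mul_le_mul_of_nonneg_right ?_ (hf b)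
  have h2 : ((range n).filter fun i => i + 1 < b ∧ b ≤ i + i + 2) ⊆ Ico ((b - 1) / 2) (b - 1) := by
    intro i hi
    have := (mem_filter.1 hi).2
    exact mem_Ico.2 ⟨by omega, by omega⟩
  have h3 := card_le_card h2
  rw [Nat.card_Ico] at h3
  exact_mod_cast h3.trans (by omega)

theorem ineq (n : ℕ) (e : ℕ → ℝ) (he : ∀ b, n < b → e b = 0) :
    ∑ i ∈ range n, ((i ! * (n - 1 - i)! : ℕ) : ℝ) * (((i : ℝ) + 1) * e (i + 1) * e (i + 1) -
      ∑ a ∈ range (i + 1), ((i : ℝ) + i + 2 - 2 * a) * (e a * e (i + i + 2 - a))) ≤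
      ∑ k ∈ range (n + 1), (((k + 1)! * (n - k)! : ℕ) : ℝ) * e k ^ 2 := by
  set f : ℕ → ℝ := fun b => (b ! : ℝ) * ((n - b)! : ℝ) * e b ^ 2 with hf
  have f0 : ∀ b, 0 ≤ f b := fun b => by simp only [hf]; positivity
  have h1 : ∀ i ∈ range n, ((i ! * (n - 1 - i)! : ℕ) : ℝ) *
      (((i : ℝ) + 1) * e (i + 1) * e (i + 1) -
      ∑ a ∈ range (i + 1), ((i : ℝ) + i + 2 - 2 * a) * (e a * e (i + i + 2 - a))) ≤
      f (i + 1) + (∑ a ∈ range (i + 1), (wt a i - wt a (i + 1)) * (((n - a)! : ℝ) * e a ^ 2) +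
        ∑ a ∈ range (i + 1), f (i + i + 2 - a)) := by
    intro i _
    rw [mul_sub, sub_eq_add_neg, mul_sum, ← sum_neg_distrib, ← sum_add_distrib]
    refine add_le_add (le_of_eq ?_) (sum_le_sum fun a ha =>
      term n e he i a (Nat.lt_succ_iff.1 (mem_range.1 ha)))
    simp only [hf]
    rw [Nat.factorial_succ, show n - (i + 1) = n - 1 - i by omega]
    push_cast
    ring
  refine (sum_le_sum h1).trans ?_
  rw [sum_add_distrib, sum_add_distrib, tele]
  have h2 := upper_terms n f f0 fun b hb => by simp only [hf, he b hb]; ring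
  have h3 : ∑ a ∈ range n, (wt a a - wt a n) * (((n - a)! : ℝ) * e a ^ 2) ≤
      ∑ a ∈ range (n + 1), f a := by
    rw [sum_range_succ]
    refine le_trans (sum_le_sum fun a _ => ?_) (le_add_of_nonneg_right (f0 n))
    have w1 : wt a a = (a ! : ℝ) := by
      unfold wt
      rw [show 2 * a - a = a by omega]
      have : (a ! : ℝ) ≠ 0 := by exact_mod_cast Nat.factorial_ne_zero _
      field_simp
    have w2 : 0 ≤ wt a n := by unfold wt; positivity
    have w3 : (0 : ℝ) ≤ ((n - a)! : ℝ) * e a ^ 2 := by positivity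
    simp only [hf]
    rw [w1, mul_assoc]
    exact mul_le_mul_of_nonneg_right (by linarith) w3
  have h4 : ∑ i ∈ range n, f (i + 1) + ∑ b ∈ range (n + 1), ((b / 2 : ℕ) : ℝ) * f b ≤
      ∑ b ∈ range (n + 1), (b : ℝ) * f b := by
    rw [sum_range_succ', sum_range_succ' (fun b : ℕ => (b : ℝ) * f b), ← add_assoc,
      ← sum_add_distrib]
    refine add_le_add (sum_le_sum fun i _ => ?_) (by simp)
    have : ((1 + (i + 1) / 2 : ℕ) : ℝ) ≤ ((i + 1 : ℕ) : ℝ) := by exact_mod_cast (by omega)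
    have h5 := mul_le_mul_of_nonneg_right this (f0 (i + 1))
    rw [Nat.cast_add, Nat.cast_one] at h5
    linarith
  have h6 : ∑ k ∈ range (n + 1), (((k + 1)! * (n - k)! : ℕ) : ℝ) * e k ^ 2 =
      ∑ b ∈ range (n + 1), (b : ℝ) * f b + ∑ a ∈ range (n + 1), f a := by
    rw [← sum_add_distrib]
    refine sum_congr rfl fun k _ => ?_
    simp only [hf]
    rw [Nat.factorial_succ]
    push_cast
    ring
  rw [h6]
  linarith

/-- The inequality for products of real linear polynomials. -/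
theorem poly_ineq {ι : Type*} [DecidableEq ι] (s : Finset ι) (c u : ι → ℝ) :
    ∑ k ∈ s, c k ^ 2 * ∑ i ∈ range s.card, ((i ! * (s.card - 1 - i)! : ℕ) : ℝ) *
      ((∏ j ∈ s.erase k, (C (c j) * X + C (u j))).coeff i *
        (∏ j ∈ s.erase k, (C (c j) * X + C (u j))).coeff i) ≤
    ∑ k ∈ range (s.card + 1), (((k + 1)! * (s.card - k)! : ℕ) : ℝ) *
      (∏ j ∈ s, (C (c j) * X + C (u j))).coeff k ^ 2 := by
  have hb := bez s c u (fun k => (∏ j ∈ s, (C (c j) * X + C (u j))).coeff k)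
    (fun k i => (∏ j ∈ s.erase k, (C (c j) * X + C (u j))).coeff i)
    (fun k hk => by
      rw [← mul_prod_erase s _ hk, add_mul, mul_assoc, coeff_add, coeff_C_mul, coeff_C_mul,
        coeff_X_mul_zero, mul_zero, zero_add])
    (fun k hk j => by
      rw [← mul_prod_erase s _ hk, add_mul, mul_assoc, coeff_add, coeff_C_mul, coeff_C_mul,
        coeff_X_mul])
    (fun i => by
      rw [mul_comm, ← coeff_derivative, derivative_prod_finset, finsetSum_coeff]
      refine sum_congr rfl fun k _ => ?_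
      rw [derivative_add, derivative_C, add_zero, derivative_C_mul_X, coeff_mul_C, mul_comm])
  refine le_trans (le_of_eq ?_) (ineq s.card
    (fun k => (∏ j ∈ s, (C (c j) * X + C (u j))).coeff k) fun b hb' => ?_)
  · simp only [mul_sum]
    rw [sum_comm]
    refine sum_congr rfl fun i _ => ?_
    rw [← hb i i, mul_sum]
    exact sum_congr rfl fun k _ => by ring
  · refine coeff_eq_zero_of_natDegree_lt (lt_of_le_of_lt ?_ hb')
    refine (natDegree_prod_le _ _).trans ?_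
    rw [card_eq_sum_ones]
    exact sum_le_sum fun j _ => natDegree_linear_le

end Pool.Agent.FS.RealRankTwo
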