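import Mathlib
import Pool.Agent.FS.RealRankTwo.Core

/-! From polynomials to real positive semidefinite matrices of rank at most two. -/

namespace Pool.Agent.FS.RealRankTwo

open Finset Polynomial Pool.Agent.Lib.MP_395ab6_co
open scoped Nat

theorem gram (n : ℕ) (c u : Fin (n + 1) → ℝ) (hu : u 0 = 0)
    (A : Matrix (Fin (n + 1)) (Fin (n + 1)) ℝ)
    (hA : A = Matrix.of fun i j => c i * c j + u i * u j) :
    ∑ k ∈ (univ : Finset (Fin (n + 1))).erase 0,
      A 0 k ^ 2 * (A.submatrix (fun j : {j : Fin (n + 1) // j ≠ 0 ∧ j ≠ k} => j.1)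
        (fun j : {j : Fin (n + 1) // j ≠ 0 ∧ j ≠ k} => j.1)).permanent ≤ A.permanent := by
  subst hA
  have hs : ((univ : Finset (Fin (n + 1))).erase 0).card = n := by simp
  have key := poly_ineq ((univ : Finset (Fin (n + 1))).erase 0) c u
  rw [hs] at key
  have hR : (Matrix.of fun i j => c i * c j + u i * u j).permanent =
      c 0 ^ 2 * ∑ k ∈ range (n + 1), (((k + 1)! * (n - k)! : ℕ) : ℝ) *
        (∏ j ∈ (univ : Finset (Fin (n + 1))).erase 0, (C (c j) * X + C (u j))).coeff k ^ 2 := by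
    rw [permanent_rank_two, Fintype.card_fin, sum_range_succ', mul_sum]
    simp only [EE_eq_coeff]
    rw [← mul_prod_erase univ _ (mem_univ (0 : Fin (n + 1))), hu, C_0, add_zero, mul_assoc,
      coeff_C_mul, coeff_X_mul_zero, mul_zero, mul_zero, mul_zero, add_zero]
    refine sum_congr rfl fun k _ => ?_
    rw [coeff_C_mul, coeff_X_mul, show n + 1 - (k + 1) = n - k by omega]
    ring
  rw [hR]
  refine le_trans (le_of_eq ?_) (mul_le_mul_of_nonneg_left key (sq_nonneg _))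
  rw [mul_sum]
  refine sum_congr rfl fun k hk => ?_
  have hmem : ∀ x : Fin (n + 1), x ∈ ((univ : Finset (Fin (n + 1))).erase 0).erase k ↔
      x ≠ 0 ∧ x ≠ k := fun x => by simp [and_comm]
  have hcard : Fintype.card {j : Fin (n + 1) // j ≠ 0 ∧ j ≠ k} = n - 1 := by
    rw [Fintype.card_of_subtype _ hmem, card_erase_of_mem hk, hs]
  have hn : 1 ≤ n := hs ▸ card_pos.2 ⟨k, hk⟩
  have h := permanent_rank_two (ι := {j : Fin (n + 1) // j ≠ 0 ∧ j ≠ k}) (fun j => c j.1)
    (fun j => u j.1) (fun j => c j.1) (fun j => u j.1)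
  rw [hcard, show n - 1 + 1 = n by omega] at h
  simp only [EE_eq_coeff] at h
  rw [← prod_subtype _ hmem (fun j => C (c j) * X + C (u j))] at h
  rw [← h, Matrix.of_apply, hu, zero_mul, add_zero, mul_pow, mul_assoc]
  rfl

theorem rotate {n : ℕ} (a b : Fin (n + 1) → ℝ) : ∃ c u : Fin (n + 1) → ℝ, u 0 = 0 ∧
    ∀ i j, a i * a j + b i * b j = c i * c j + u i * u j := by
  by_cases h : b 0 = 0
  · exact ⟨a, b, h, fun _ _ => rfl⟩
  · have h1 : 0 < a 0 ^ 2 + b 0 ^ 2 := by positivity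
    have h2 := Real.sq_sqrt h1.le
    have h3 := (Real.sqrt_pos.2 h1).ne'
    generalize √(a 0 ^ 2 + b 0 ^ 2) = ρ at h2 h3
    refine ⟨fun j => (a 0 * a j + b 0 * b j) / ρ, fun j => (a 0 * b j - b 0 * a j) / ρ, ?_,
      fun i j => ?_⟩
    · simp only
      rw [mul_comm, sub_self, zero_div]
    · field_simp
      rw [h2]
      ring

theorem two_terms {ι κ : Type*} [DecidableEq κ] (T : Finset κ) (hT : T.card ≤ 2)
    (v : κ → ι → ℝ) : ∃ a b : ι → ℝ, ∀ i j, ∑ t ∈ T, v t i * v t j = a i * a j + b i * b j := by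
  rcases Nat.le_succ_iff.1 hT with h | h
  · rcases Nat.le_succ_iff.1 h with h | h
    · rw [Nat.le_zero, card_eq_zero] at h
      exact ⟨0, 0, fun i j => by simp [h]⟩
    · obtain ⟨x, rfl⟩ := card_eq_one.1 h
      exact ⟨v x, 0, fun i j => by simp⟩
  · obtain ⟨x, y, hxy, rfl⟩ := card_eq_two.1 h
    exact ⟨v x, v y, fun i j => by rw [sum_pair hxy]⟩

theorem exists_gram {ι : Type*} [Fintype ι] [DecidableEq ι] (A : Matrix ι ι ℝ)
    (hA : A.PosSemidef) (hr : A.rank ≤ 2) :
    ∃ a b : ι → ℝ, ∀ i j, A i j = a i * a j + b i * b j := by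
  classical
  rw [hA.1.rank_eq_card_non_zero_eigs, Fintype.card_subtype] at hr
  obtain ⟨a, b, h⟩ := two_terms _ hr
    (fun t i => √(hA.1.eigenvalues t) * (hA.1.eigenvectorUnitary : Matrix ι ι ℝ) i t)
  refine ⟨a, b, fun i j => ?_⟩
  rw [← h, sum_filter]
  conv_lhs => rw [hA.1.spectral_theorem, Unitary.conjStarAlgAut_apply, Matrix.mul_apply]
  refine sum_congr rfl fun t _ => ?_
  rw [Matrix.mul_diagonal, Matrix.star_apply, star_trivial]
  have h1 := Real.mul_self_sqrt (hA.eigenvalues_nonneg t)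
  simp only [Function.comp_apply, RCLike.ofReal_real_eq_id, id]
  split_ifs with h0
  · linear_combination (-((hA.1.eigenvectorUnitary : Matrix ι ι ℝ) i t *
      (hA.1.eigenvectorUnitary : Matrix ι ι ℝ) j t)) * h1
  · rw [not_not.1 h0, mul_zero, zero_mul]

end Pool.Agent.FS.RealRankTwo
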