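import Mathlib
import Pool.Agent.FS.RealRankTwo.Mat

/-! The quadratic form of the permanent inequality for Gram matrices of real plane vectors. -/

namespace Pool.Agent.FS.RealRankTwo

open Finset Polynomial Pool.Agent.Lib.MP_395ab6_co
open scoped Nat

/-- The sharper telescoping weight. -/
noncomputable def wu (a m : ℕ) : ℝ := wt a m / 2 + if m = a then (a ! : ℝ) / 4 else 0

theorem wu_step (a t : ℕ) : ∃ N : ℝ, ((t : ℝ) + 1) ^ 2 ≤ N ∧
    wu a (a + t) - wu a (a + t + 1) = ((a + t)! : ℝ) ^ 2 * N / ((a + 2 * t + 2)! : ℝ) := by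
  have h := wt_step a t
  have h1 : (0 : ℝ) ≤ a := by positivity
  rcases t with _ | t
  · refine ⟨((a : ℝ) + 1) * (a + 4) / 4, by push_cast; nlinarith, ?_⟩
    unfold wu
    rw [if_pos (by omega), if_neg (by omega)]
    have e : wt a (a + 0) / 2 + (a ! : ℝ) / 4 - (wt a (a + 0 + 1) / 2 + 0) =
        (wt a (a + 0) - wt a (a + 0 + 1)) / 2 + (a ! : ℝ) / 4 := by ring
    rw [e, h]
    simp only [add_zero, mul_zero, Nat.cast_zero]
    rw [Nat.factorial_succ (a + 1), Nat.factorial_succ a]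
    have h2 : (a ! : ℝ) ≠ 0 := by exact_mod_cast Nat.factorial_ne_zero _
    push_cast
    field_simp
    ring
  · refine ⟨(((a : ℝ) + 2 * ((t + 1 : ℕ) : ℝ) + 2) * (a + 2 * ((t + 1 : ℕ) : ℝ) + 1) -
      (a + ((t + 1 : ℕ) : ℝ) + 1) ^ 2) / 2, ?_, ?_⟩
    · have h2 : (0 : ℝ) ≤ t := by positivity
      push_cast
      nlinarith [mul_nonneg h1 h2, mul_nonneg h2 h2]
    · unfold wu
      rw [if_neg (by omega), if_neg (by omega)]
      have e : wt a (a + (t + 1)) / 2 + 0 - (wt a (a + (t + 1) + 1) / 2 + 0) =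
          (wt a (a + (t + 1)) - wt a (a + (t + 1) + 1)) / 2 := by ring
      rw [e, h]
      ring

theorem term2 (n : ℕ) (e : ℕ → ℝ) (he : ∀ b, n < b → e b = 0) (σ : ℝ) (hσ : 0 < σ) (i a : ℕ)
    (ha : a ≤ i) :
    -(((i ! * (n - 1 - i)! : ℕ) : ℝ) * (((i : ℝ) + i + 2 - 2 * a) * (e a * e (i + i + 2 - a)))) ≤
      (wu a i - wu a (i + 1)) * (((n - a)! : ℝ) * e a ^ 2 / σ) +
        σ * (((i + i + 2 - a)! : ℝ) * ((n - (i + i + 2 - a))! : ℝ) * e (i + i + 2 - a) ^ 2) := by
  obtain ⟨t, rfl⟩ := Nat.exists_eq_add_of_le ha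
  obtain ⟨N, hN, hw⟩ := wu_step a t
  rw [hw, show a + t + (a + t) + 2 - a = a + 2 * t + 2 by omega]
  have hN0 : 0 < N := lt_of_lt_of_le (by positivity) hN
  by_cases hb : n < a + 2 * t + 2
  · rw [he _ hb]
    simp only [mul_zero, neg_zero]
    positivity
  · obtain ⟨r, rfl⟩ := Nat.exists_eq_add_of_le (not_lt.1 hb)
    rw [show a + 2 * t + 2 + r - 1 - (a + t) = r + (t + 1) by omega,
      show a + 2 * t + 2 + r - a = r + 2 * (t + 1) by omega,
      show a + 2 * t + 2 + r - (a + 2 * t + 2) = r by omega]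
    have hc : ((r + (t + 1))! : ℝ) ^ 2 ≤ ((r + 2 * (t + 1))! : ℝ) * (r ! : ℝ) := by
      exact_mod_cast fact_conv r (t + 1)
    have hB : (0 : ℝ) < ((a + 2 * t + 2)! : ℝ) := by positivity
    have key := amgm
      (((a + t)! : ℝ) ^ 2 * N / ((a + 2 * t + 2)! : ℝ) * ((r + 2 * (t + 1))! : ℝ) / σ)
      (σ * (((a + 2 * t + 2)! : ℝ) * (r ! : ℝ)))
      (((a + t)! : ℝ) * ((r + (t + 1))! : ℝ) * ((t : ℝ) + 1)) (e a) (e (a + 2 * t + 2))
      (by positivity) (by
        have e1 : ((a + t)! : ℝ) ^ 2 * N / ((a + 2 * t + 2)! : ℝ) * ((r + 2 * (t + 1))! : ℝ) / σ *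
            (σ * (((a + 2 * t + 2)! : ℝ) * (r ! : ℝ))) =
            ((a + t)! : ℝ) ^ 2 * ((((r + 2 * (t + 1))! : ℝ) * (r ! : ℝ)) * N) := by
          field_simp
        rw [e1, mul_pow, mul_pow, mul_assoc]
        exact mul_le_mul_of_nonneg_left (mul_le_mul hc hN (by positivity) (by positivity))
          (by positivity))
    refine le_trans (le_of_eq ?_) (key.trans (le_of_eq ?_))
    · push_cast; ring
    · ring

theorem tele2 (w : ℕ → ℕ → ℝ) (z : ℕ → ℝ) (N : ℕ) :
    ∑ i ∈ range N, ∑ a ∈ range (i + 1), (w a i - w a (i + 1)) * z a =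
      ∑ a ∈ range N, (w a a - w a N) * z a := by
  induction N with
  | zero => simp
  | succ N ih =>
    have h : ∑ a ∈ range N, (w a a - w a N) * z a =
        ∑ a ∈ range (N + 1), (w a a - w a N) * z a := by
      rw [sum_range_succ, sub_self, zero_mul, add_zero]
    rw [sum_range_succ, ih, h, ← sum_add_distrib]
    exact sum_congr rfl fun a _ => by ring

theorem ineq2 (n : ℕ) (e : ℕ → ℝ) (he : ∀ b, n < b → e b = 0) (τ : ℝ) (hτ : 0 < τ) :
    2 * ∑ i ∈ range n, ((i ! * (n - 1 - i)! : ℕ) : ℝ) * (((i : ℝ) + 1) * e (i + 1) * e (i + 1) -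
      ∑ a ∈ range (i + 1), ((i : ℝ) + i + 2 - 2 * a) * (e a * e (i + i + 2 - a))) ≤
      τ * ∑ b ∈ range (n + 1), (b : ℝ) * ((b ! : ℝ) * ((n - b)! : ℝ) * e b ^ 2) +
      (∑ b ∈ range (n + 1), (b : ℝ) * ((b ! : ℝ) * ((n - b)! : ℝ) * e b ^ 2) +
        2 * ∑ b ∈ range (n + 1), (b ! : ℝ) * ((n - b)! : ℝ) * e b ^ 2) / τ := by
  set f : ℕ → ℝ := fun b => (b ! : ℝ) * ((n - b)! : ℝ) * e b ^ 2 with hf
  change _ ≤ τ * ∑ b ∈ range (n + 1), (b : ℝ) * f b +
    (∑ b ∈ range (n + 1), (b : ℝ) * f b + 2 * ∑ b ∈ range (n + 1), f b) / τ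
  have f0 : ∀ b, 0 ≤ f b := fun b => by simp only [hf]; positivity
  have hσ : 0 < 3 * τ / 4 := by positivity
  have h1 : ∀ i ∈ range n, ((i ! * (n - 1 - i)! : ℕ) : ℝ) *
      (((i : ℝ) + 1) * e (i + 1) * e (i + 1) -
      ∑ a ∈ range (i + 1), ((i : ℝ) + i + 2 - 2 * a) * (e a * e (i + i + 2 - a))) ≤
      f (i + 1) + (∑ a ∈ range (i + 1),
        (wu a i - wu a (i + 1)) * (((n - a)! : ℝ) * e a ^ 2 / (3 * τ / 4)) +
        3 * τ / 4 * ∑ a ∈ range (i + 1), f (i + i + 2 - a)) := by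
    intro i _
    rw [mul_sub, sub_eq_add_neg, mul_sum, mul_sum, ← sum_neg_distrib, ← sum_add_distrib]
    refine add_le_add (le_of_eq ?_) (sum_le_sum fun a ha =>
      term2 n e he _ hσ i a (Nat.lt_succ_iff.1 (mem_range.1 ha)))
    simp only [hf]
    rw [Nat.factorial_succ, show n - (i + 1) = n - 1 - i by omega]
    push_cast
    ring
  have h1' := sum_le_sum h1
  rw [sum_add_distrib, sum_add_distrib, tele2, ← mul_sum] at h1'
  have h2 := mul_le_mul_of_nonneg_left
    (upper_terms n f f0 fun b hb => by simp only [hf, he b hb]; ring) hσ.le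
  have h3 : ∑ a ∈ range n, (wu a a - wu a n) * (((n - a)! : ℝ) * e a ^ 2 / (3 * τ / 4)) ≤
      (∑ a ∈ range (n + 1), f a) / τ := by
    rw [sum_div, sum_range_succ]
    refine le_trans (sum_le_sum fun a _ => ?_) (le_add_of_nonneg_right (div_nonneg (f0 n) hτ.le))
    have w1 : wu a a = 3 / 4 * (a ! : ℝ) := by
      unfold wu wt
      rw [if_pos rfl, show 2 * a - a = a by omega]
      have : (a ! : ℝ) ≠ 0 := by exact_mod_cast Nat.factorial_ne_zero _
      field_simp
      ring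
    have w2 : 0 ≤ wu a n := by
      unfold wu wt
      split_ifs <;> positivity
    have w3 : (0 : ℝ) ≤ ((n - a)! : ℝ) * e a ^ 2 / (3 * τ / 4) := by positivity
    refine (mul_le_mul_of_nonneg_right (sub_le_self _ w2) w3).trans (le_of_eq ?_)
    simp only [hf]
    rw [w1]
    field_simp
  have h4 : 2 * ∑ i ∈ range n, f (i + 1) +
      2 * (3 * τ / 4 * ∑ b ∈ range (n + 1), ((b / 2 : ℕ) : ℝ) * f b) ≤
      τ * ∑ b ∈ range (n + 1), (b : ℝ) * f b + (∑ b ∈ range (n + 1), (b : ℝ) * f b) / τ := by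
    rw [sum_range_succ', sum_range_succ' (fun b : ℕ => (b : ℝ) * f b)]
    simp only [Nat.zero_div, Nat.cast_zero, zero_mul, add_zero]
    rw [mul_sum, mul_sum, mul_sum, mul_sum, sum_div, ← sum_add_distrib, ← sum_add_distrib]
    refine sum_le_sum fun i _ => ?_
    have a1 : 2 + 3 * τ / 2 * (((i + 1) / 2 : ℕ) : ℝ) ≤
        τ * ((i + 1 : ℕ) : ℝ) + ((i + 1 : ℕ) : ℝ) / τ := by
      have b0 : 0 < 1 / τ := by positivity
      have b1 : τ * (1 / τ) = 1 := by field_simp
      rcases i with _ | i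
      · norm_num
        rw [← one_div]
        nlinarith [sq_nonneg (τ - 1), sq_nonneg (1 / τ - 1), sq_nonneg (τ - 1 / τ)]
      · have b2 : 2 * (((i + 1 + 1) / 2 : ℕ) : ℝ) ≤ ((i + 1 + 1 : ℕ) : ℝ) := by
          exact_mod_cast (by omega)
        have b3 : (2 : ℝ) ≤ ((i + 1 + 1 : ℕ) : ℝ) := by exact_mod_cast (by omega)
        generalize ((i + 1 + 1 : ℕ) : ℝ) = k at b2 b3
        generalize (((i + 1 + 1) / 2 : ℕ) : ℝ) = l at b2
        have b4 : 1 ≤ τ / 4 + 1 / τ := by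
          rw [div_add_div _ _ (by norm_num) hτ.ne', le_div_iff₀ (by positivity)]
          nlinarith [sq_nonneg (τ - 2)]
        have b5 := mul_le_mul_of_nonneg_left b4 (show 0 ≤ k by linarith)
        have b6 := mul_le_mul_of_nonneg_left b2 hτ.le
        have b7 : k / τ = k * (1 / τ) := by ring
        rw [b7]
        nlinarith
    have a2 := mul_le_mul_of_nonneg_right a1 (f0 (i + 1))
    calc _ = (2 + 3 * τ / 2 * (((i + 1) / 2 : ℕ) : ℝ)) * f (i + 1) := by ring
      _ ≤ _ := a2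
      _ = _ := by ring
  rw [add_div, mul_div_assoc]
  linarith

theorem of_all_tau (S X Y : ℝ) (hS : 0 ≤ S) (hX : 0 ≤ X) (hY : 0 ≤ Y)
    (h : ∀ τ : ℝ, 0 < τ → 2 * S ≤ τ * Y + (Y + 2 * X) / τ) : X ^ 2 + S ^ 2 ≤ (Y + X) ^ 2 := by
  rcases hS.eq_or_lt with h0 | h0
  · rw [← h0]; nlinarith
  rcases hY.eq_or_lt with h1 | h1
  · have h2 := h (2 * X / S + 1) (by positivity)
    rw [← h1, mul_zero, zero_add, zero_add, le_div_iff₀ (by positivity)] at h2
    have h3 : 2 * S * (2 * X / S + 1) = 4 * X + 2 * S := by field_simp; ring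
    linarith
  · have h2 := h (S / Y) (by positivity)
    rw [div_mul_cancel₀ _ h1.ne', div_div_eq_mul_div] at h2
    have h3 : S ≤ (Y + 2 * X) * Y / S := by linarith
    rw [le_div_iff₀ h0] at h3
    nlinarith

theorem poly_ineq2 {ι : Type*} [DecidableEq ι] (s : Finset ι) (c u : ι → ℝ) :
    (∑ k ∈ range (s.card + 1), ((k ! * (s.card - k)! : ℕ) : ℝ) *
      ((∏ j ∈ s, (C (c j) * X + C (u j))).coeff k *
        (∏ j ∈ s, (C (c j) * X + C (u j))).coeff k)) ^ 2 +
    (∑ k ∈ s, c k ^ 2 * ∑ i ∈ range s.card, ((i ! * (s.card - 1 - i)! : ℕ) : ℝ) *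
      ((∏ j ∈ s.erase k, (C (c j) * X + C (u j))).coeff i *
        (∏ j ∈ s.erase k, (C (c j) * X + C (u j))).coeff i)) ^ 2 ≤
    (∑ k ∈ range (s.card + 1), (((k + 1)! * (s.card - k)! : ℕ) : ℝ) *
      (∏ j ∈ s, (C (c j) * X + C (u j))).coeff k ^ 2) ^ 2 := by
  have hb := bez s c u (fun k => (∏ j ∈ s, (C (c j) * X + C (u j))).coeff k)
    (fun k i => (∏ j ∈ s.erase k, (C (c j) * X + C (u j))).coeff i)
    (fun k hk => by
      rw [← mul_prod_erase s _ hk, add_mul, mul_assoc, coeff_add, coeff_C_mul, coeff_C_mul,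
        coeff_X_mul_zero, mul_zero, zero_add])
    (fun k hk j => by
      rw [← mul_prod_erase s _ hk, add_mul, mul_assoc, coeff_add, coeff_C_mul, coeff_C_mul,
        coeff_X_mul])
    (fun i => by
      rw [mul_comm, ← coeff_derivative, derivative_prod_finset, finsetSum_coeff]
      refine sum_congr rfl fun k _ => ?_
      rw [derivative_add, derivative_C, add_zero, derivative_C_mul_X, coeff_mul_C, mul_comm])
  have he : ∀ b, s.card < b → (∏ j ∈ s, (C (c j) * X + C (u j))).coeff b = 0 := fun b hb' => by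
    refine coeff_eq_zero_of_natDegree_lt (lt_of_le_of_lt ?_ hb')
    refine (natDegree_prod_le _ _).trans ?_
    rw [card_eq_sum_ones]
    exact sum_le_sum fun j _ => natDegree_linear_le
  have hS : 0 ≤ ∑ k ∈ s, c k ^ 2 * ∑ i ∈ range s.card, ((i ! * (s.card - 1 - i)! : ℕ) : ℝ) *
      ((∏ j ∈ s.erase k, (C (c j) * X + C (u j))).coeff i *
        (∏ j ∈ s.erase k, (C (c j) * X + C (u j))).coeff i) :=
    sum_nonneg fun k _ => mul_nonneg (sq_nonneg _) (sum_nonneg fun i _ =>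
      mul_nonneg (by positivity) (mul_self_nonneg _))
  have key := of_all_tau _ _ _ hS (sum_nonneg fun b _ => by positivity)
    (sum_nonneg fun b _ => by positivity) fun τ hτ => le_trans (le_of_eq (by
      congr 1
      simp only [mul_sum]
      rw [sum_comm]
      refine sum_congr rfl fun i _ => ?_
      rw [← hb i i, mul_sum]
      exact sum_congr rfl fun k _ => by ring)) (ineq2 s.card
        (fun k => (∏ j ∈ s, (C (c j) * X + C (u j))).coeff k) he τ hτ)
  refine le_trans (le_of_eq ?_) (key.trans (le_of_eq ?_))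
  · congr 2
    exact sum_congr rfl fun k _ => by push_cast; ring
  · congr 1
    rw [← sum_add_distrib]
    refine sum_congr rfl fun k _ => ?_
    rw [Nat.factorial_succ]
    push_cast
    ring

theorem gram2 (n : ℕ) (c u : Fin (n + 1) → ℝ) (hu : u 0 = 0)
    (A : Matrix (Fin (n + 1)) (Fin (n + 1)) ℝ)
    (hA : A = Matrix.of fun i j => c i * c j + u i * u j) :
    (A 0 0 * (A.submatrix (fun j : {j : Fin (n + 1) // j ≠ 0} => j.1)
        (fun j : {j : Fin (n + 1) // j ≠ 0} => j.1)).permanent) ^ 2 +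
    (∑ k ∈ (univ : Finset (Fin (n + 1))).erase 0,
      A 0 k ^ 2 * (A.submatrix (fun j : {j : Fin (n + 1) // j ≠ 0 ∧ j ≠ k} => j.1)
        (fun j : {j : Fin (n + 1) // j ≠ 0 ∧ j ≠ k} => j.1)).permanent) ^ 2 ≤ A.permanent ^ 2 := by
  subst hA
  have hs : ((univ : Finset (Fin (n + 1))).erase 0).card = n := by simp
  have key := poly_ineq2 ((univ : Finset (Fin (n + 1))).erase 0) c u
  rw [hs] at key
  have hR : (Matrix.of fun i j => c i * c j + u i * u j).permanent =
      c 0 ^ 2 * ∑ k ∈ range (n + 1), (((k + 1)! * (n - k)! : ℕ) : ℝ) *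
        (∏ j ∈ (univ : Finset (Fin (n + 1))).erase 0, (C (c j) * X + C (u j))).coeff k ^ 2 := by
    rw [permanent_rank_two, Fintype.card_fin, sum_range_succ', mul_sum]
    simp only [EE_eq_coeff]
    rw [← mul_prod_erase univ _ (mem_univ (0 : Fin (n + 1))), hu, C_0, add_zero, mul_assoc,
      coeff_C_mul, coeff_X_mul_zero, mul_zero, mul_zero, mul_zero, add_zero]
    refine sum_congr rfl fun k _ => ?_
    rw [coeff_C_mul, coeff_X_mul, show n + 1 - (k + 1) = n - k by omega]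
    ring
  rw [hR, mul_pow (c 0 ^ 2)]
  refine le_trans (le_of_eq ?_) (mul_le_mul_of_nonneg_left key (sq_nonneg _))
  rw [mul_add, ← mul_pow, ← mul_pow]
  congr 2
  · have hmem : ∀ x : Fin (n + 1), x ∈ (univ : Finset (Fin (n + 1))).erase 0 ↔ x ≠ 0 :=
      fun x => by simp
    have hcard : Fintype.card {j : Fin (n + 1) // j ≠ 0} = n := by
      rw [Fintype.card_of_subtype _ hmem, hs]
    have h := permanent_rank_two (ι := {j : Fin (n + 1) // j ≠ 0}) (fun j => c j.1)
      (fun j => u j.1) (fun j => c j.1) (fun j => u j.1)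
    rw [hcard] at h
    simp only [EE_eq_coeff] at h
    rw [← prod_subtype _ hmem (fun j => C (c j) * X + C (u j))] at h
    rw [← h, Matrix.of_apply, hu, zero_mul, add_zero, sq]
    rfl
  · rw [mul_sum]
    refine sum_congr rfl fun k hk => ?_
    have hmem : ∀ x : Fin (n + 1), x ∈ ((univ : Finset (Fin (n + 1))).erase 0).erase k ↔
        x ≠ 0 ∧ x ≠ k := fun x => by simp [and_comm]
    have hcard : Fintype.card {j : Fin (n + 1) // j ≠ 0 ∧ j ≠ k} = n - 1 := by
      rw [Fintype.card_of_subtype _ hmem, card_erase_of_mem hk, hs]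
    have hn : 1 ≤ n := hs ▸ card_pos.2 ⟨k, hk⟩
    have h := permanent_rank_two (ι := {j : Fin (n + 1) // j ≠ 0 ∧ j ≠ k}) (fun j => c j.1)
      (fun j => u j.1) (fun j => c j.1) (fun j => u j.1)
    rw [hcard, show n - 1 + 1 = n by omega] at h
    simp only [EE_eq_coeff] at h
    rw [← prod_subtype _ hmem (fun j => C (c j) * X + C (u j))] at h
    rw [← h, Matrix.of_apply, hu, zero_mul, add_zero, mul_pow, mul_assoc]
    rfl

end Pool.Agent.FS.RealRankTwo
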